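import Mathlib
import Pool.Agent.Y992.ND.OneDim

set_option autoImplicit false

open MeasureTheory ProbabilityTheory Filter Topology
open scoped ENNReal Pointwise

/-!
# Random voting on `ℤ` with an arbitrary neighbourhood: ergodicity in two cusps at zero noise

For every neighbourhood of odd size there are `c > 0` and `K` such that the random voting with noise
`(ε, δ)` is ergodic, exponentially fast, as soon as `ε ≤ c δ^K` or `δ ≤ c ε^K`; the invariant law is
concentrated near `1`, respectively near `0`.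
-/

namespace Pool.Agent.Results.MP_101c18_pr.BiasedCusps

open Pool.Agent.H443R3 Pool.Agent.Y992.ND

/-- The noise of the question: given the majority value `a`, the new symbol is `0` with probability
`ε`, `1` with probability `δ` and `a` with probability `1 - ε - δ`.  (`true` stands for `1`.) -/
def IsVotingNoise (θ : Bool → PMF Bool) (ε δ : ℝ) : Prop :=
  θ false true = ENNReal.ofReal δ ∧ θ false false = ENNReal.ofReal (ε + (1 - ε - δ)) ∧
  θ true false = ENNReal.ofReal ε ∧ θ true true = ENNReal.ofReal (δ + (1 - ε - δ))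

/-- Such a noise exists. -/
theorem exists_votingNoise {ε δ : ℝ} (hε : 0 ≤ ε) (hδ : 0 ≤ δ) (h : ε + δ ≤ 1) :
    ∃ θ, IsVotingNoise θ ε δ := by
  have h1 : ENNReal.ofReal δ ≤ 1 := by
    rw [← ENNReal.ofReal_one]; exact ENNReal.ofReal_le_ofReal (by linarith)
  have h2 : ENNReal.ofReal ε ≤ 1 := by
    rw [← ENNReal.ofReal_one]; exact ENNReal.ofReal_le_ofReal (by linarith)
  refine ⟨MP_417bbc_pr.BiasedNoiseErgodic.noise δ ε h1 h2, ?_, ?_, ?_, ?_⟩
  · simp [MP_417bbc_pr.BiasedNoiseErgodic.noise]
  · rw [show ε + (1 - ε - δ) = 1 - δ by ring, ENNReal.ofReal_sub _ hδ, ENNReal.ofReal_one]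
    simp [MP_417bbc_pr.BiasedNoiseErgodic.noise]
  · simp [MP_417bbc_pr.BiasedNoiseErgodic.noise]
  · rw [show δ + (1 - ε - δ) = 1 - ε by ring, ENNReal.ofReal_sub _ hε, ENNReal.ofReal_one]
    simp [MP_417bbc_pr.BiasedNoiseErgodic.noise]

/-- The random voting on `ℤ` with neighbourhood `V` (`Site 1 = ℤ^1`): majority of the symbols at
`s + v`, `v ∈ V`, followed by the noise. -/
noncomputable def voting (V : Finset (Site 1)) (θ : Bool → PMF Bool) : PCA 1 Bool :=
  noisy V (majority V) θ

theorem result (V : Finset (Site 1)) (hV : Odd V.card) (η : ℝ) (hη : 0 < η) :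
    ∃ c : ℝ, 0 < c ∧ ∃ K : ℕ, ∀ ε δ : ℝ, 0 < ε → 0 < δ → ε + δ ≤ 1 →
      ∀ θ : Bool → PMF Bool, IsVotingNoise θ ε δ →
        (ε ≤ c * δ ^ K → ∃ π : Measure (Config 1 Bool), ExpErgodic (voting V θ) π ∧
          ∀ i, 1 - η ≤ (π {x | x i = true}).toReal) ∧
        (δ ≤ c * ε ^ K → ∃ π : Measure (Config 1 Bool), ExpErgodic (voting V θ) π ∧
          ∀ i, 1 - η ≤ (π {x | x i = false}).toReal) := by
  obtain ⟨c1, hc1, K1, h1⟩ := cusp (N := V) majority_mono true (not_erodes_one_dim V hV true) hη
  obtain ⟨c2, hc2, K2, h2⟩ := cusp (N := V) majority_mono false (not_erodes_one_dim V hV false) hη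
  refine ⟨min c1 c2, lt_min hc1 hc2, max K1 K2, fun ε δ hε hδ h θ hθ => ?_⟩
  obtain ⟨g1, -, g3, -⟩ := hθ
  have e1 : (θ false true).toReal = δ := by rw [g1, ENNReal.toReal_ofReal hδ.le]
  have e2 : (θ true false).toReal = ε := by rw [g3, ENNReal.toReal_ofReal hε.le]
  constructor
  · intro hc
    apply h1 θ
    · simpa [e1] using hδ
    · simp only [Bool.not_true, e1, e2]; linarith
    · simp only [Bool.not_true, e1, e2]
      refine hc.trans ?_
      have : δ ^ max K1 K2 ≤ δ ^ K1 := pow_le_pow_of_le_one hδ.le (by linarith) (le_max_left _ _)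
      exact mul_le_mul (min_le_left _ _) this (by positivity) hc1.le
  · intro hc
    apply h2 θ
    · simpa [e2] using hε
    · simp only [Bool.not_false, e1, e2]; linarith
    · simp only [Bool.not_false, e1, e2]
      refine hc.trans ?_
      have : ε ^ max K1 K2 ≤ ε ^ K2 := pow_le_pow_of_le_one hε.le (by linarith) (le_max_right _ _)
      exact mul_le_mul (min_le_right _ _) this (by positivity) hc2.le

end Pool.Agent.Results.MP_101c18_pr.BiasedCusps
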